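import Pool.Agent.Lib.MP_b347ba_lc.Graph

/-!
# Relabelling a rotation system; the code of a rotation system is injective
-/

namespace Pool.MP_b347ba_lc

open Set

/-! ## The code is injective -/

/-- The word of a number. -/
def numW (k : ℕ) : List Bool := true :: (List.replicate k true ++ [false])

/-- The word of a list of numbers. -/
def listW (l : List ℕ) : List Bool := l.flatMap numW ++ [false]

theorem replicate_false_inj : ∀ {a b : ℕ} {x y : List Bool},
    List.replicate a true ++ false :: x = List.replicate b true ++ false :: y → a = b ∧ x = y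
  | 0, 0, x, y, h => by simpa using h
  | 0, b + 1, x, y, h => by simp [List.replicate_succ] at h
  | a + 1, 0, x, y, h => by simp [List.replicate_succ] at h
  | a + 1, b + 1, x, y, h => by
    simp only [List.replicate_succ, List.cons_append, List.cons.injEq, true_and] at h
    obtain ⟨h1, h2⟩ := replicate_false_inj h
    exact ⟨by omega, h2⟩

theorem listW_inj : ∀ {l l' : List ℕ} {x y : List Bool},
    listW l ++ x = listW l' ++ y → l = l' ∧ x = y
  | [], [], x, y, h => by simpa [listW] using h
  | [], b :: l', x, y, h => by simp [listW, numW] at h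
  | a :: l, [], x, y, h => by simp [listW, numW] at h
  | a :: l, b :: l', x, y, h => by
    have h' : List.replicate a true ++ false :: (listW l ++ x) =
        List.replicate b true ++ false :: (listW l' ++ y) := by
      simpa [listW, numW] using h
    obtain ⟨h1, h2⟩ := replicate_false_inj h'
    obtain ⟨h3, h4⟩ := listW_inj h2
    exact ⟨by rw [h1, h3], h4⟩

theorem flatMap_listW_inj {ι : Type} : ∀ (vl : List ι) (f g : ι → List ℕ) (x y : List Bool),
    vl.flatMap (fun v => listW (f v)) ++ x = vl.flatMap (fun v => listW (g v)) ++ y →
      (∀ v ∈ vl, f v = g v) ∧ x = y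
  | [], f, g, x, y, h => by simpa using h
  | v :: vl, f, g, x, y, h => by
    have h' : listW (f v) ++ (vl.flatMap (fun v => listW (f v)) ++ x) =
        listW (g v) ++ (vl.flatMap (fun v => listW (g v)) ++ y) := by
      simpa using h
    obtain ⟨h1, h2⟩ := listW_inj h'
    obtain ⟨h3, h4⟩ := flatMap_listW_inj vl f g x y h2
    refine ⟨?_, h4⟩
    intro w hw
    rcases List.mem_cons.1 hw with rfl | hw
    · exact h1
    · exact h3 w hw

theorem code_eq (R : RotSys) : R.code = List.replicate R.n true ++
    false :: (List.finRange R.n).flatMap fun v => listW ((R.rot v).map Fin.val) := by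
  unfold RotSys.code listW
  congr 2
  congr 1
  funext v
  congr 1
  rw [List.flatMap_map]
  rfl

theorem code_injective : Function.Injective RotSys.code := by
  intro R R' h
  rw [code_eq, code_eq] at h
  obtain ⟨h1, h2⟩ := replicate_false_inj h
  obtain ⟨n, rot, hn, hi, hs⟩ := R
  obtain ⟨n', rot', hn', hi', hs'⟩ := R'
  simp only at h1
  subst h1
  simp only at h2
  have h3 := (flatMap_listW_inj (List.finRange n) (fun v => (rot v).map Fin.val)
    (fun v => (rot' v).map Fin.val) [] [] (by simpa using h2)).1
  have h4 : rot = rot' := by
    funext v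
    exact List.map_injective_iff.2 Fin.val_injective (h3 v (List.mem_finRange v))
  subst h4
  rfl

/-! ## Relabelling -/

theorem realizable_relabel {V W : Type} (e : V ≃ W) (rot : V → List V)
    (rot' : W → List W) (hrot : ∀ v, rot' (e v) = (rot v).map e) (h : Realizable rot) :
    Realizable rot' := by
  obtain ⟨D⟩ := h
  have hm : ∀ w x, x ∈ rot' w → e.symm x ∈ rot (e.symm w) := by
    intro w x hx
    have := hrot (e.symm w)
    rw [Equiv.apply_symm_apply] at this
    rw [this] at hx
    obtain ⟨y, hy, rfl⟩ := List.mem_map.1 hx
    simpa using hy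
  have hs : ∀ a b c d : W, s(a, b) ≠ s(c, d) →
      s(e.symm a, e.symm b) ≠ s(e.symm c, e.symm d) := by
    intro a b c d hne heq
    apply hne
    rw [Sym2.eq_iff] at heq ⊢
    simpa using heq
  refine ⟨{
    pos := fun w => D.pos (e.symm w)
    arc := fun u v => D.arc (e.symm u) (e.symm v)
    pos_inj := D.pos_inj.comp e.symm.injective
    cont := fun u v h => D.cont _ _ (hm _ _ h)
    inj := fun u v h => D.inj _ _ (hm _ _ h)
    src := fun u v h => D.src _ _ (hm _ _ h)
    rev := fun u v h => D.rev _ _ (hm _ _ h)
    avoid := fun u v h t ht w => D.avoid _ _ (hm _ _ h) t ht _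
    once := fun u v x y h h' hne => D.once _ _ _ _ (hm _ _ h) (hm _ _ h') (hs _ _ _ _ hne)
    proper := fun u v x y h h' hne => D.proper _ _ _ _ (hm _ _ h) (hm _ _ h') (hs _ _ _ _ hne)
    triple := fun u v x y w z h h' h'' h1 h2 h3 => D.triple _ _ _ _ _ _ (hm _ _ h) (hm _ _ h')
      (hm _ _ h'') (hs _ _ _ _ h1) (hs _ _ _ _ h2) (hs _ _ _ _ h3)
    rotation := ?_ }⟩
  intro w
  have h1 := D.rotation (e.symm w)
  have h2 := hrot (e.symm w)
  rw [Equiv.apply_symm_apply] at h2
  rw [h2, List.map_map]
  have h3 : (fun v => D.arc (e.symm w) (e.symm v)) ∘ ⇑e = D.arc (e.symm w) := by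
    funext v
    simp
  rw [h3]
  exact h1

/-- Word of a rotation system whose vertices are listed in `vl`. -/
def codeL {V : Type} [DecidableEq V] (vl : List V) (rot : V → List V) : List Bool :=
  List.replicate vl.length true ++ false :: vl.flatMap fun v =>
    (rot v).flatMap (fun w => true :: (List.replicate (vl.idxOf w) true ++ [false])) ++ [false]

theorem codeL_eq {V : Type} [DecidableEq V] (vl : List V) (rot : V → List V) (hvl : vl.Nodup)
    (hall : ∀ v, v ∈ vl) (hnd : ∀ v, (rot v).Nodup) (hirr : ∀ v, v ∉ rot v)
    (hsymm : ∀ u v, v ∈ rot u → u ∈ rot v) :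
    ∃ R : RotSys, R.code = codeL vl rot ∧ (Realizable R.rot ↔ Realizable rot) := by
  let e : Fin vl.length ≃ V := hvl.getEquivOfForallMemList vl hall
  have he : ∀ i, e i = vl.get i := fun i => rfl
  have hes : ∀ v, (e.symm v).val = vl.idxOf v := fun v => rfl
  let rot' : Fin vl.length → List (Fin vl.length) := fun i => (rot (e i)).map e.symm
  have hm : ∀ i j, j ∈ rot' i ↔ e j ∈ rot (e i) := by
    intro i j
    constructor
    · intro h
      obtain ⟨w, hw, rfl⟩ := List.mem_map.1 h
      simpa using hw
    · intro h
      exact List.mem_map.2 ⟨e j, h, by simp⟩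
  let R : RotSys := {
    n := vl.length
    rot := rot'
    nodup := fun i => (hnd _).map e.symm.injective
    irrefl := fun i h => hirr _ ((hm _ _).1 h)
    symm := fun i j h => (hm _ _).2 (hsymm _ _ ((hm _ _).1 h)) }
  refine ⟨R, ?_, ?_⟩
  · rw [code_eq]
    unfold codeL
    change List.replicate vl.length true ++ false :: ((List.finRange vl.length).flatMap
      fun v => listW ((rot' v).map Fin.val)) = _
    have h1 : (List.finRange vl.length).map vl.get = vl := by
      apply List.ext_get
      · simp
      · intro n h1 h2
        simp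
    have h2 : (List.finRange vl.length).flatMap (fun v => listW ((rot' v).map Fin.val)) =
        ((List.finRange vl.length).map vl.get).flatMap fun v =>
          (rot v).flatMap (fun w => true :: (List.replicate (vl.idxOf w) true ++ [false])) ++
            [false] := by
      rw [List.flatMap_map]
      congr 1
      funext i
      simp only [listW, rot', List.map_map]
      rw [List.flatMap_map]
      rfl
    rw [h2, h1]
  · constructor
    · intro h
      refine realizable_relabel e rot' rot ?_ h
      intro i
      simp only [rot', List.map_map]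
      simp
    · intro h
      refine realizable_relabel e.symm rot rot' ?_ h
      intro v
      simp only [rot', Equiv.apply_symm_apply]

end Pool.MP_b347ba_lc
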